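import Mathlib
import Pool.Agent.Y857.LB.Ball
import Pool.Agent.H933R3.Evas

/-!
# Cones: cones are non-evasive, the cone over a ball is a ball
-/

set_option autoImplicit false

namespace Pool.Agent.Helper65K9.NL

open Finset Pool.Agent.H933R3 Pool.Agent.Y857.LB

variable {n : ℕ}

/-- The trace of a set of vertices of the cone: the base vertices (vertex `i` of the base is the
vertex `i + 1` of the cone, the apex is `0`). -/
def pre (s : Finset (Fin (n + 1))) : Finset (Fin n) := univ.filter (fun i => i.succ ∈ s)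

/-- The cone over `K`: all sets of vertices whose trace on the base is a face of `K`. -/
def con (K : Finset (Finset (Fin n))) : Finset (Finset (Fin (n + 1))) :=
  univ.filter (fun s => pre s ∈ K)

theorem mem_pre {s : Finset (Fin (n + 1))} {i : Fin n} : i ∈ pre s ↔ i.succ ∈ s := by
  simp [pre]

theorem mem_con {K : Finset (Finset (Fin n))} {s : Finset (Fin (n + 1))} :
    s ∈ con K ↔ pre s ∈ K := by
  simp [con]

theorem pre_mono {s t : Finset (Fin (n + 1))} (h : s ⊆ t) : pre s ⊆ pre t := fun _ hi =>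
  mem_pre.2 (h (mem_pre.1 hi))

/-- the set of vertices of the cone with the given trace, with the apex -/
def lift (σ : Finset (Fin n)) : Finset (Fin (n + 1)) := insert 0 (σ.map (Fin.succEmb n))

theorem zero_mem_lift (σ : Finset (Fin n)) : (0 : Fin (n + 1)) ∈ lift σ := mem_insert_self _ _

theorem succ_mem_lift {σ : Finset (Fin n)} {i : Fin n} : i.succ ∈ lift σ ↔ i ∈ σ := by
  unfold lift
  rw [mem_insert, mem_map]
  constructor
  · rintro (h | ⟨j, hj, h⟩)
    · exact absurd h (Fin.succ_ne_zero i)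
    · have : j = i := Fin.succ_injective _ h
      exact this ▸ hj
  · intro h
    exact Or.inr ⟨i, h, rfl⟩

theorem pre_lift (σ : Finset (Fin n)) : pre (lift σ) = σ := by
  ext i
  rw [mem_pre, succ_mem_lift]

theorem lift_pre {s : Finset (Fin (n + 1))} (h : (0 : Fin (n + 1)) ∈ s) : lift (pre s) = s := by
  ext i
  refine Fin.cases ?_ (fun i => ?_) i
  · simp [zero_mem_lift, h]
  · rw [succ_mem_lift, mem_pre]

theorem eq_of_pre_eq {s t : Finset (Fin (n + 1))} (hs : (0 : Fin (n + 1)) ∈ s)
    (ht : (0 : Fin (n + 1)) ∈ t) (h : pre s = pre t) : s = t := by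
  rw [← lift_pre hs, ← lift_pre ht, h]

theorem card_lift (σ : Finset (Fin n)) : (lift σ).card = σ.card + 1 := by
  unfold lift
  rw [card_insert_of_notMem, card_map]
  rw [mem_map]
  rintro ⟨j, -, h⟩
  exact Fin.succ_ne_zero j h

theorem card_pre {s : Finset (Fin (n + 1))} (h : (0 : Fin (n + 1)) ∈ s) :
    (pre s).card + 1 = s.card := by
  rw [← card_lift, lift_pre h]

theorem pre_empty : pre (∅ : Finset (Fin (n + 1))) = ∅ := by
  ext i
  simp [mem_pre]

theorem isCx_con {K : Finset (Finset (Fin n))} (hK : IsCx K) : IsCx (con K) := by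
  refine ⟨?_, fun σ hσ τ hτ => ?_⟩
  · rw [mem_con, pre_empty]
    exact hK.1
  · rw [mem_con] at hσ ⊢
    exact hK.2 _ hσ _ (pre_mono hτ)

/-! ### Cones are non-evasive -/

theorem pre_insert_succ (i : Fin n) (s : Finset (Fin (n + 1))) :
    pre (insert i.succ s) = insert i (pre s) := by
  ext j
  simp [mem_pre]

theorem del_con (K : Finset (Finset (Fin n))) (v : Fin n) :
    del (con K) v.succ = con (del K v) := by
  ext s
  rw [mem_del, mem_con, mem_con, mem_del, mem_pre]

theorem link_con {K : Finset (Finset (Fin n))} (hK : IsCx K) (v : Fin n) :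
    link (con K) v.succ = con (link K v) := by
  ext s
  rw [mem_link (isCx_con hK), mem_con, mem_con, mem_link hK, mem_pre, pre_insert_succ]

theorem nonEvasive_aux : ∀ (N : ℕ) (K : Finset (Finset (Fin n))), K.card ≤ N → IsCx K →
    NonEvasive (con K) := by
  intro N
  induction N with
  | zero =>
    intro K hN hK
    have : K = ∅ := card_eq_zero.1 (Nat.le_zero.1 hN)
    rw [this] at hK
    exact absurd hK.1 (notMem_empty _)
  | succ N ih =>
    intro K hN hK
    by_cases h : ∃ v, {v} ∈ K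
    · obtain ⟨v, hv⟩ := h
      have h1 : (del K v).card ≤ N := by
        have : del K v ⊂ K := by
          refine ⟨fun σ hσ => (mem_del.1 hσ).1, fun hsub => ?_⟩
          exact (mem_del.1 (hsub hv)).2 (mem_singleton_self v)
        have := card_lt_card this
        omega
      have h2 : (link K v).card ≤ N := by
        have : link K v ⊂ K := by
          refine ⟨fun σ hσ => hK.2 _ ((mem_link hK).1 hσ).2 _ (subset_insert _ _), fun hsub => ?_⟩
          exact ((mem_link hK).1 (hsub hv)).1 (mem_singleton_self v)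
        have := card_lt_card this
        omega
      refine NonEvasive.step (con K) v.succ ?_ ?_ ?_
      · rw [mem_con]
        have : pre ({v.succ} : Finset (Fin (n + 1))) = {v} := by
          ext i
          simp [mem_pre]
        rw [this]
        exact hv
      · rw [del_con]
        exact ih _ h1 (hK.del v)
      · rw [link_con hK]
        exact ih _ h2 (hK.link hv)
    · have hK' : K = {∅} := by
        ext σ
        rw [mem_singleton]
        constructor
        · intro hσ
          by_contra hne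
          obtain ⟨v, hv⟩ := nonempty_iff_ne_empty.2 hne
          exact h ⟨v, hK.2 _ hσ _ (singleton_subset_iff.2 hv)⟩
        · rintro rfl
          exact hK.1
      have : con K = {∅, {0}} := by
        ext s
        rw [mem_con, hK', mem_singleton, mem_insert, mem_singleton]
        constructor
        · intro hs
          by_cases h0 : (0 : Fin (n + 1)) ∈ s
          · right
            rw [← lift_pre h0, hs]
            simp [lift]
          · left
            rw [eq_empty_iff_forall_notMem]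
            intro i
            refine Fin.cases h0 (fun i hi => ?_) i
            have : i ∈ pre s := mem_pre.2 hi
            rw [hs] at this
            exact notMem_empty _ this
        · rintro (rfl | rfl)
          · exact pre_empty
          · ext i
            simp [mem_pre]
      rw [this]
      exact NonEvasive.point 0

/-- Cones are non-evasive. -/
theorem nonEvasive_con {K : Finset (Finset (Fin n))} (hK : IsCx K) : NonEvasive (con K) :=
  nonEvasive_aux K.card K le_rfl hK

/-! ### The cone over a ball is a ball -/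

/-- the cone over the ball -/
def C (d : ℕ) : Set (EuclideanSpace ℝ (Fin d) × ℝ) := {p | ‖p.1‖ + p.2 ≤ 1 ∧ 0 ≤ p.2}

theorem C_convex (d : ℕ) : Convex ℝ (C d) := by
  intro p hp q hq s t hs ht hst
  have hp' : ‖p.1‖ + p.2 ≤ 1 := hp.1
  have hq' : ‖q.1‖ + q.2 ≤ 1 := hq.1
  have hp2 := hp.2
  have hq2 := hq.2
  refine ⟨?_, ?_⟩
  · show ‖s • p.1 + t • q.1‖ + (s • p.2 + t • q.2) ≤ 1
    have h1 : ‖s • p.1 + t • q.1‖ ≤ s * ‖p.1‖ + t * ‖q.1‖ := by
      refine (norm_add_le _ _).trans ?_
      rw [norm_smul, norm_smul, Real.norm_of_nonneg hs, Real.norm_of_nonneg ht]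
    rw [smul_eq_mul, smul_eq_mul]
    nlinarith
  · show 0 ≤ s • p.2 + t • q.2
    rw [smul_eq_mul, smul_eq_mul]
    positivity

theorem C_closed (d : ℕ) : IsClosed (C d) := by
  have h1 : IsClosed {p : EuclideanSpace ℝ (Fin d) × ℝ | ‖p.1‖ + p.2 ≤ 1} :=
    isClosed_le (by fun_prop) (by fun_prop)
  have h2 : IsClosed {p : EuclideanSpace ℝ (Fin d) × ℝ | (0 : ℝ) ≤ p.2} :=
    isClosed_le (by fun_prop) (by fun_prop)
  exact h1.inter h2

theorem C_bounded (d : ℕ) : Bornology.IsBounded (C d) := by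
  apply Metric.isBounded_closedBall (x := (0 : EuclideanSpace ℝ (Fin d) × ℝ)) (r := 1) |>.subset
  intro p hp
  have hp' : ‖p.1‖ + p.2 ≤ 1 := hp.1
  have hp2 : 0 ≤ p.2 := hp.2
  rw [mem_closedBall_zero_iff, Prod.norm_def]
  apply max_le
  · linarith
  · rw [Real.norm_of_nonneg hp2]
    have := norm_nonneg p.1
    linarith

theorem C_int (d : ℕ) : (interior (C d)).Nonempty := by
  refine ⟨(0, 1 / 2), ?_⟩
  have ho1 : IsOpen {p : EuclideanSpace ℝ (Fin d) × ℝ | ‖p.1‖ + p.2 < 1} :=
    isOpen_lt (by fun_prop) (by fun_prop)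
  have ho2 : IsOpen {p : EuclideanSpace ℝ (Fin d) × ℝ | (0 : ℝ) < p.2} :=
    isOpen_lt (by fun_prop) (by fun_prop)
  have ho : IsOpen {p : EuclideanSpace ℝ (Fin d) × ℝ | ‖p.1‖ + p.2 < 1 ∧ 0 < p.2} := ho1.inter ho2
  refine interior_maximal (fun p hp => ?_) ho ?_
  · have hp' : ‖p.1‖ + p.2 < 1 := hp.1
    have hp2 : 0 < p.2 := hp.2
    exact ⟨hp'.le, hp2.le⟩
  · constructor
    · show ‖(0 : EuclideanSpace ℝ (Fin d))‖ + (1 / 2 : ℝ) < 1
      rw [norm_zero]
      norm_num
    · show (0 : ℝ) < 1 / 2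
      norm_num

theorem C_ball (d : ℕ) :
    Nonempty (C d ≃ₜ Metric.closedBall (0 : EuclideanSpace ℝ (Fin (d + 1))) 1) := by
  let e : (EuclideanSpace ℝ (Fin d) × ℝ) ≃L[ℝ] EuclideanSpace ℝ (Fin (d + 1)) :=
    ContinuousLinearEquiv.ofFinrankEq (by simp)
  have hc : Convex ℝ (e.symm ⁻¹' (C d)) := (C_convex d).linear_preimage e.symm.toLinearMap
  have hcl : IsClosed (e.symm ⁻¹' (C d)) := (C_closed d).preimage e.symm.continuous
  have hint : (interior (e.symm ⁻¹' (C d))).Nonempty := by
    have : interior (e.symm ⁻¹' (C d)) = e.symm ⁻¹' interior (C d) :=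
      (e.symm.toHomeomorph.preimage_interior (C d)).symm
    rw [this]
    obtain ⟨x, hx⟩ := C_int d
    refine ⟨e x, ?_⟩
    show e.symm (e x) ∈ interior (C d)
    rw [ContinuousLinearEquiv.symm_apply_apply]
    exact hx
  have himg : e.symm ⁻¹' (C d) = e '' (C d) := by
    ext x
    constructor
    · intro hx
      exact ⟨e.symm x, hx, by simp⟩
    · rintro ⟨y, hy, rfl⟩
      show e.symm (e y) ∈ C d
      rw [ContinuousLinearEquiv.symm_apply_apply]
      exact hy
  have hb : Bornology.IsBounded (e.symm ⁻¹' (C d)) := by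
    rw [himg]
    exact e.lipschitz.isBounded_image (C_bounded d)
  obtain ⟨h, -, h2, -⟩ := exists_homeomorph_image_interior_closure_frontier_eq_unitBall hc hint hb
  rw [hcl.closure_eq, himg] at h2
  exact ⟨((e.toHomeomorph.image (C d)).trans (h.image (e '' C d))).trans (Homeomorph.setCongr h2)⟩

section ball
variable {d : ℕ} {K : Finset (Finset (Fin n))}

/-- the map onto the realization of the cone -/
noncomputable def g1 (x : Fin n → ℝ) (r : ℝ) : Fin (n + 1) → ℝ :=
  Fin.cons r (fun i => (1 - r) * x i)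

theorem g1_zero (x : Fin n → ℝ) (r : ℝ) : g1 x r 0 = r := rfl

theorem g1_succ (x : Fin n → ℝ) (r : ℝ) (i : Fin n) : g1 x r i.succ = (1 - r) * x i := rfl

theorem g1_mem {x : Fin n → ℝ} (hx : x ∈ realization K) {r : ℝ} (hr0 : 0 ≤ r) (hr : r ≤ 1) :
    g1 x r ∈ realization (con K) := by
  obtain ⟨h0, h1, σ, hσ, h2⟩ := hx
  refine ⟨?_, ?_, lift σ, ?_, ?_⟩
  · intro i
    refine Fin.cases ?_ (fun i => ?_) i
    · exact hr0
    · rw [g1_succ]; exact mul_nonneg (by linarith) (h0 i)
  · rw [Fin.sum_univ_succ, g1_zero]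
    have : ∑ i : Fin n, g1 x r i.succ = (1 - r) * ∑ i, x i := by
      rw [mul_sum]
      exact sum_congr rfl fun i _ => g1_succ x r i
    rw [this, h1]
    ring
  · rw [mem_con, pre_lift]
    exact hσ
  · intro i
    refine Fin.cases ?_ (fun i => ?_) i
    · intro h
      exact absurd (zero_mem_lift σ) h
    · intro h
      rw [succ_mem_lift] at h
      rw [g1_succ, h2 i h, mul_zero]

theorem g1_surj {y : Fin (n + 1) → ℝ} (hy : y ∈ realization (con K)) :
    ∃ r : ℝ, 0 ≤ r ∧ r ≤ 1 ∧ (r = 1 → ∀ x, g1 x r = y) ∧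
      (r ≠ 1 → ∃ x ∈ realization K, g1 x r = y) := by
  obtain ⟨h0, h1, s, hs, h2⟩ := hy
  rw [mem_con] at hs
  rw [Fin.sum_univ_succ] at h1
  have hS : 0 ≤ ∑ i : Fin n, y i.succ := sum_nonneg fun i _ => h0 _
  refine ⟨y 0, h0 0, by linarith, ?_, ?_⟩
  · intro hr x
    have hz : ∑ i : Fin n, y i.succ = 0 := by linarith
    have hz' := (sum_eq_zero_iff_of_nonneg fun (i : Fin n) _ => h0 i.succ).1 hz
    funext i
    refine Fin.cases rfl (fun i => ?_) i
    rw [g1_succ, hr, hz' i (mem_univ _)]
    ring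
  · intro hr
    have hlt : 0 < 1 - y 0 := by
      have := lt_of_le_of_ne (show y 0 ≤ 1 by linarith) hr
      linarith
    refine ⟨fun i => y i.succ / (1 - y 0), ⟨?_, ?_, pre s, hs, ?_⟩, ?_⟩
    · intro i
      exact div_nonneg (h0 _) hlt.le
    · rw [← sum_div, div_eq_one_iff_eq hlt.ne']
      linarith
    · intro i hi
      show y i.succ / _ = 0
      rw [h2 i.succ (fun h => hi (mem_pre.2 h)), zero_div]
    · funext i
      refine Fin.cases rfl (fun i => ?_) i
      rw [g1_succ]
      field_simp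

theorem g1_eq_iff {x x' : Fin n → ℝ} {r r' : ℝ} :
    g1 x r = g1 x' r' ↔ r = r' ∧ (r = 1 ∨ x = x') := by
  constructor
  · intro h
    have hr : r = r' := congrFun h 0
    refine ⟨hr, ?_⟩
    subst hr
    by_cases h2 : r = 1
    · exact Or.inl h2
    · right
      have h3 : 1 - r ≠ 0 := fun h4 => h2 (by linarith)
      funext i
      exact mul_left_cancel₀ h3 (congrFun h i.succ)
  · rintro ⟨rfl, h | rfl⟩
    · funext i
      refine Fin.cases rfl (fun i => ?_) i
      rw [g1_succ, g1_succ, h]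
      ring
    · rfl

/-- The cone over a triangulated ball is a triangulated ball. -/
theorem isBall_con (hK : IsBall d K) : IsBall (d + 1) (con K) := by
  obtain ⟨h⟩ := hK
  have : CompactSpace (Metric.closedBall (0 : EuclideanSpace ℝ (Fin d)) 1) :=
    isCompact_iff_compactSpace.1 (isCompact_closedBall 0 1)
  let P := Metric.closedBall (0 : EuclideanSpace ℝ (Fin d)) 1 × Set.Icc (0 : ℝ) 1
  let Q1 : P → realization (con K) := fun p =>
    ⟨g1 (h.symm p.1).1 p.2.1, g1_mem (h.symm p.1).2 p.2.2.1 p.2.2.2⟩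
  let Q2 : P → C d := fun p => ⟨((1 - p.2.1) • p.1.1, p.2.1), by
    have h1 : p.2.1 ≤ 1 := p.2.2.2
    have h0 : 0 ≤ p.2.1 := p.2.2.1
    have h2 : ‖(p.1.1 : EuclideanSpace ℝ (Fin d))‖ ≤ 1 := mem_closedBall_zero_iff.1 p.1.2
    refine ⟨?_, h0⟩
    show ‖(1 - p.2.1) • (p.1.1 : EuclideanSpace ℝ (Fin d))‖ + p.2.1 ≤ 1
    rw [norm_smul, Real.norm_of_nonneg (by linarith)]
    nlinarith [norm_nonneg (p.1.1 : EuclideanSpace ℝ (Fin d))]⟩
  have c1 : Continuous Q1 := by
    apply Continuous.subtype_mk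
    apply continuous_pi
    intro i
    have hr : Continuous fun p : P => (p.2.1 : ℝ) := continuous_subtype_val.comp continuous_snd
    have hx : ∀ j : Fin n, Continuous fun p : P => (h.symm p.1).1 j := fun j =>
      (continuous_apply j).comp (continuous_subtype_val.comp (h.symm.continuous.comp continuous_fst))
    refine Fin.cases ?_ (fun i => ?_) i
    · exact hr
    · show Continuous fun p : P => (1 - p.2.1) * (h.symm p.1).1 i
      exact (continuous_const.sub hr).mul (hx i)
  have c2 : Continuous Q2 := by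
    apply Continuous.subtype_mk
    have hr : Continuous fun p : P => (p.2.1 : ℝ) := continuous_subtype_val.comp continuous_snd
    have hx : Continuous fun p : P => (p.1.1 : EuclideanSpace ℝ (Fin d)) :=
      continuous_subtype_val.comp continuous_fst
    exact ((continuous_const.sub hr).smul hx).prodMk hr
  have s1 : Function.Surjective Q1 := by
    rintro ⟨y, hy⟩
    obtain ⟨r, hr0, hr, h1, h2⟩ := g1_surj hy
    by_cases hr1 : r = 1
    · refine ⟨(⟨0, by simp⟩, ⟨r, hr0, hr⟩), ?_⟩
      exact Subtype.ext (h1 hr1 _)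
    · obtain ⟨x, hx, hxy⟩ := h2 hr1
      refine ⟨(h ⟨x, hx⟩, ⟨r, hr0, hr⟩), ?_⟩
      apply Subtype.ext
      show g1 (h.symm (h ⟨x, hx⟩)).1 r = y
      rw [h.symm_apply_apply]
      exact hxy
  have s2 : Function.Surjective Q2 := by
    rintro ⟨⟨z, r⟩, hz⟩
    have hz' : ‖z‖ + r ≤ 1 := hz.1
    have hr0 : 0 ≤ r := hz.2
    have hr : r ≤ 1 := by linarith [norm_nonneg z]
    by_cases hr1 : r = 1
    · refine ⟨(⟨0, by simp⟩, ⟨r, hr0, hr⟩), ?_⟩
      apply Subtype.ext
      have hz0 : z = 0 := by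
        rw [hr1] at hz'
        exact norm_eq_zero.1 (le_antisymm (by linarith) (norm_nonneg z))
      show ((1 - r) • (0 : EuclideanSpace ℝ (Fin d)), r) = (z, r)
      rw [smul_zero, hz0]
    · have hlt : 0 < 1 - r := by
        have := lt_of_le_of_ne hr hr1
        linarith
      refine ⟨(⟨(1 - r)⁻¹ • z, ?_⟩, ⟨r, hr0, hr⟩), ?_⟩
      · rw [mem_closedBall_zero_iff, norm_smul, norm_inv, Real.norm_of_nonneg hlt.le,
          inv_mul_le_iff₀ hlt]
        linarith
      · apply Subtype.ext
        show ((1 - r) • ((1 - r)⁻¹ • z), r) = (z, r)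
        rw [smul_inv_smul₀ hlt.ne']
  have hk : ∀ p p', Q1 p = Q1 p' ↔ Q2 p = Q2 p' := by
    rintro ⟨z, r⟩ ⟨z', r'⟩
    have e1 : Q1 (z, r) = Q1 (z', r') ↔ r.1 = r'.1 ∧ (r.1 = 1 ∨ z = z') := by
      rw [Subtype.ext_iff]
      show g1 (h.symm z).1 r.1 = g1 (h.symm z').1 r'.1 ↔ _
      rw [g1_eq_iff]
      have e3 : (h.symm z).1 = (h.symm z').1 ↔ z = z' :=
        Subtype.ext_iff.symm.trans h.symm.injective.eq_iff
      rw [e3]
    have e2 : Q2 (z, r) = Q2 (z', r') ↔ r.1 = r'.1 ∧ (r.1 = 1 ∨ z = z') := by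
      rw [Subtype.ext_iff]
      show ((1 - r.1) • z.1, r.1) = ((1 - r'.1) • z'.1, r'.1) ↔ _
      rw [Prod.mk.injEq]
      constructor
      · rintro ⟨h1, h2⟩
        refine ⟨h2, ?_⟩
        rw [← h2] at h1
        by_cases h3 : r.1 = 1
        · exact Or.inl h3
        · right
          have h4 : 1 - r.1 ≠ 0 := fun h5 => h3 (by linarith)
          exact Subtype.ext (smul_right_injective _ h4 h1)
      · rintro ⟨h1, h2 | h2⟩
        · refine ⟨?_, h1⟩
          rw [← h1, h2, sub_self, zero_smul, zero_smul]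
        · rw [h2, h1]
          exact ⟨rfl, rfl⟩
    rw [e1, e2]
  obtain ⟨e⟩ := homeo_of_ker Q1 Q2 c1 c2 s1 s2 hk
  obtain ⟨e'⟩ := C_ball d
  exact ⟨e.trans e'⟩

end ball

end Pool.Agent.Helper65K9.NL
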