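import Mathlib
import Pool.Agent.Helper65K9.NL.Cone

/-!
# If the cone over `K` is locally constructible then so is `K`
-/

set_option autoImplicit false

namespace Pool.Agent.Helper65K9.NL

open Finset Pool.Agent.H933R3

variable {n d : ℕ} {K : Finset (Finset (Fin n))}

theorem isFacet_con {F : Finset (Fin (n + 1))} :
    IsFacet (con K) F ↔ (0 : Fin (n + 1)) ∈ F ∧ IsFacet K (pre F) := by
  constructor
  · rintro ⟨h1, h2⟩
    have h0 : (0 : Fin (n + 1)) ∈ F := by
      have h3 : insert 0 F ∈ con K := by
        rw [mem_con] at h1 ⊢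
        have : pre (insert 0 F) = pre F := by
          ext i
          rw [mem_pre, mem_pre, mem_insert]
          simp
        rw [this]
        exact h1
      rw [← h2 _ h3 (subset_insert _ _)]
      exact mem_insert_self _ _
    refine ⟨h0, mem_con.1 h1, fun G hG hFG => ?_⟩
    have h3 : lift G ∈ con K := by
      rw [mem_con, pre_lift]
      exact hG
    have h4 : F ⊆ lift G := by
      intro i hi
      by_cases hi0 : i = 0
      · rw [hi0]; exact zero_mem_lift G
      · obtain ⟨j, rfl⟩ := Fin.exists_succ_eq.2 hi0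
        rw [succ_mem_lift]
        exact hFG (mem_pre.2 hi)
    rw [← h2 _ h3 h4, pre_lift]
  · rintro ⟨h0, h1, h2⟩
    refine ⟨mem_con.2 h1, fun G hG hFG => ?_⟩
    exact eq_of_pre_eq (hFG h0) h0 (h2 _ (mem_con.1 hG) (pre_mono hFG))

theorem same_pre {𝓕 G : Finset (Finset (Fin (n + 1)))} {A F F' : Finset (Fin (n + 1))}
    (h : SameFace 𝓕 G A F F') :
    SameFace (𝓕.image pre) (G.image pre) (pre A) (pre F) (pre F') := by
  refine Relation.ReflTransGen.lift pre ?_ _ _ h
  rintro X Y ⟨hX, hY, R, hR, h1, h2, h3⟩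
  exact ⟨mem_image_of_mem _ hX, mem_image_of_mem _ hY, pre R, mem_image_of_mem _ hR,
    pre_mono h1, pre_mono h2, pre_mono h3⟩

/-- a common face of codimension one of two facets contains the apex -/
theorem zero_mem_common (hp : ∀ F, IsFacet (con K) F → F.card = d + 2)
    {F F' R : Finset (Fin (n + 1))} (hF : IsFacet (con K) F) (hF' : IsFacet (con K) F')
    (hne : F ≠ F') (hR : R.card = d + 1) (h1 : R ⊆ F) (h2 : R ⊆ F') :
    (0 : Fin (n + 1)) ∈ R := by
  have h3 : (F ∩ F').card < d + 2 := by
    rw [← hp F hF]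
    apply card_lt_card
    refine ⟨inter_subset_left, fun h => hne ?_⟩
    apply eq_of_subset_of_card_le (h.trans inter_subset_right)
    rw [hp F hF, hp F' hF']
  have h4 : R = F ∩ F' := by
    apply eq_of_subset_of_card_le (subset_inter h1 h2)
    omega
  rw [h4, mem_inter]
  exact ⟨(isFacet_con.1 hF).1, (isFacet_con.1 hF').1⟩

theorem stage_pre (hp : ∀ F, IsFacet (con K) F → F.card = d + 2)
    {𝓕 G : Finset (Finset (Fin (n + 1)))} (h : LCStage (d + 1) (con K) 𝓕 G) :
    (∀ F ∈ 𝓕, IsFacet (con K) F) ∧ (∀ R ∈ G, (0 : Fin (n + 1)) ∈ R ∧ R.card = d + 1) ∧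
      LCStage d K (𝓕.image pre) (G.image pre) := by
  induction h with
  | start F hF =>
    refine ⟨?_, ?_, ?_⟩
    · intro F' hF'
      rw [mem_singleton] at hF'
      exact hF' ▸ hF
    · intro R hR
      exact absurd hR (notMem_empty _)
    · rw [image_singleton, image_empty]
      exact LCStage.start _ (isFacet_con.1 hF).2
  | attach 𝓕 G F F' R h hF hF' hn hR h1 h2 hG ih =>
    obtain ⟨i1, i2, i3⟩ := ih
    have hne : F ≠ F' := fun e => hn (e ▸ hF)
    have h0 : (0 : Fin (n + 1)) ∈ R := zero_mem_common hp (i1 F hF) hF' hne hR h1 h2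
    refine ⟨?_, ?_, ?_⟩
    · intro X hX
      rw [mem_insert] at hX
      rcases hX with rfl | hX
      · exact hF'
      · exact i1 X hX
    · intro X hX
      rw [mem_insert] at hX
      rcases hX with rfl | hX
      · exact ⟨h0, hR⟩
      · exact i2 X hX
    · rw [image_insert, image_insert]
      refine LCStage.attach _ _ (pre F) (pre F') (pre R) i3 (mem_image_of_mem _ hF)
        (isFacet_con.1 hF').2 ?_ ?_ (pre_mono h1) (pre_mono h2) ?_
      · intro h3
        obtain ⟨X, hX, h4⟩ := mem_image.1 h3
        have := eq_of_pre_eq (isFacet_con.1 (i1 X hX)).1 (isFacet_con.1 hF').1 h4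
        exact hn (this ▸ hX)
      · have := card_pre h0
        omega
      · intro h3
        obtain ⟨X, hX, h4⟩ := mem_image.1 h3
        have := eq_of_pre_eq (i2 X hX).1 h0 h4
        exact hG (this ▸ hX)
  | glue 𝓕 G F F' R A h hF hF' hne hR h1 h2 hG hA hAR hs ih =>
    obtain ⟨i1, i2, i3⟩ := ih
    have h0 : (0 : Fin (n + 1)) ∈ R := zero_mem_common hp (i1 F hF) (i1 F' hF') hne hR h1 h2
    have hA0 : (0 : Fin (n + 1)) ∈ A := by
      by_contra hA0
      -- no gluing along a face of the base is possible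
      have hRA : R = insert 0 A := by
        symm
        apply eq_of_subset_of_card_le (insert_subset h0 hAR)
        rw [card_insert_of_notMem hA0]
        omega
      have key : ∀ X, SameFace 𝓕 G A F X → X = F := by
        intro X hX
        induction hX with
        | refl => rfl
        | @tail Y Z hYZ hstep ih' =>
          obtain ⟨-, -, R', hR', h3, h4, h5⟩ := hstep
          exfalso
          have h6 := i2 R' hR'
          have h7 : insert 0 A = R' := by
            apply eq_of_subset_of_card_le (insert_subset h6.1 h3)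
            rw [card_insert_of_notMem hA0]
            omega
          exact hG (by rw [hRA, h7]; exact hR')
      exact hne (key F' hs).symm
    refine ⟨i1, ?_, ?_⟩
    · intro X hX
      rw [mem_insert] at hX
      rcases hX with rfl | hX
      · exact ⟨h0, hR⟩
      · exact i2 X hX
    · rw [image_insert]
      refine LCStage.glue _ _ (pre F) (pre F') (pre R) (pre A) i3 (mem_image_of_mem _ hF)
        (mem_image_of_mem _ hF') ?_ ?_ (pre_mono h1) (pre_mono h2) ?_ ?_ (pre_mono hAR)
        (same_pre hs)
      · intro h3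
        exact hne (eq_of_pre_eq (isFacet_con.1 (i1 F hF)).1 (isFacet_con.1 (i1 F' hF')).1 h3)
      · have := card_pre h0
        omega
      · intro h3
        obtain ⟨X, hX, h4⟩ := mem_image.1 h3
        have := eq_of_pre_eq (i2 X hX).1 h0 h4
        exact hG (this ▸ hX)
      · have := card_pre hA0
        omega

/-- If the cone over `K` is locally constructible then so is `K`. -/
theorem isLC_of_con (h : IsLC (d + 1) (con K)) : IsLC d K := by
  obtain ⟨h1, h2, 𝓕, G, h3, h4, h5⟩ := h
  obtain ⟨i1, i2, i3⟩ := stage_pre h1 h3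
  refine ⟨?_, ?_, 𝓕.image pre, G.image pre, i3, ?_, ?_⟩
  · intro F hF
    have h6 : IsFacet (con K) (lift F) := by
      rw [isFacet_con, pre_lift]
      exact ⟨zero_mem_lift F, hF⟩
    have h7 := h1 _ h6
    rw [card_lift] at h7
    omega
  · intro R hR X Y Z hX hY hZ hRX hRY hRZ
    have hl : ∀ F, IsFacet K F → IsFacet (con K) (lift F) := fun F hF => by
      rw [isFacet_con, pre_lift]
      exact ⟨zero_mem_lift F, hF⟩
    have hls : ∀ {A B : Finset (Fin n)}, A ⊆ B → lift A ⊆ lift B := fun {A B} hAB =>
      insert_subset_insert _ (map_subset_map.2 hAB)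
    have hli : ∀ {A B : Finset (Fin n)}, lift A = lift B → A = B := fun {A B} hAB => by
      rw [← pre_lift A, hAB, pre_lift]
    rcases h2 (lift R) (by rw [card_lift, hR]) (lift X) (lift Y) (lift Z) (hl X hX) (hl Y hY)
      (hl Z hZ) (hls hRX) (hls hRY) (hls hRZ) with h | h | h
    · exact Or.inl (hli h)
    · exact Or.inr (Or.inl (hli h))
    · exact Or.inr (Or.inr (hli h))
  · intro F hF
    have h6 : IsFacet (con K) (lift F) := by
      rw [isFacet_con, pre_lift]
      exact ⟨zero_mem_lift F, hF⟩
    exact mem_image.2 ⟨lift F, h4 _ h6, pre_lift F⟩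
  · intro A hA F hF F' hF' hAF hAF'
    obtain ⟨X, hX, rfl⟩ := mem_image.1 hF
    obtain ⟨Y, hY, rfl⟩ := mem_image.1 hF'
    have h6 : lift A ∈ con K := by
      rw [mem_con, pre_lift]
      exact hA
    have hsub : ∀ Z ∈ 𝓕, A ⊆ pre Z → lift A ⊆ Z := by
      intro Z hZ hAZ i hi
      by_cases hi0 : i = 0
      · rw [hi0]; exact (isFacet_con.1 (i1 Z hZ)).1
      · obtain ⟨j, rfl⟩ := Fin.exists_succ_eq.2 hi0
        rw [succ_mem_lift] at hi
        exact mem_pre.1 (hAZ hi)
    have h7 := same_pre (h5 (lift A) h6 X hX Y hY (hsub X hX hAF) (hsub Y hY hAF'))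
    rwa [pre_lift] at h7

end Pool.Agent.Helper65K9.NL
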