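import Mathlib
import Pool.Agent.Helper175.NS.Sub
import Pool.Agent.H933R3.Ball

/-!
# A 3-ball with 14 vertices and 64 tetrahedra

The complex is given by bit masks. It is obtained from two tetrahedra with a common triangle by
bistellar flips.
-/

set_option autoImplicit false

namespace Pool.Agent.Helper65K9.NL

open Finset Pool.Agent.H933R3 Pool.Agent.Helper175.NS

/-- the set with a given bit mask -/
def dec (m : ℕ) : Finset ℕ := (range 15).filter (fun i => m.testBit i = true)

theorem mem_dec {m n : ℕ} : n ∈ dec m ↔ n < 15 ∧ m.testBit n = true := by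
  rw [dec, mem_filter, mem_range]

def decL (l : List ℕ) : Finset (Finset ℕ) := (l.map dec).toFinset

theorem mem_decL {l : List ℕ} {A : Finset ℕ} : A ∈ decL l ↔ ∃ m ∈ l, dec m = A := by
  rw [decL, List.mem_toFinset, List.mem_map]

def bits (m : ℕ) : List ℕ := (List.range 15).filter (fun i => m.testBit i)

theorem mem_bits {m n : ℕ} : n ∈ bits m ↔ n ∈ dec m := by
  rw [bits, List.mem_filter, List.mem_range, mem_dec]

def starB (l : List ℕ) (ρ v : ℕ) : List ℕ :=
  l.flatMap (fun m => if m &&& ρ = ρ then (bits ρ).map (fun z => (m ^^^ 2 ^ z) ||| 2 ^ v) else [m])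

theorem testBit_big {ρ i : ℕ} (hρ : ρ < 16384) (hi : 14 ≤ i) : ρ.testBit i = false := by
  apply Nat.testBit_eq_false_of_lt
  calc ρ < 2 ^ 14 := by norm_num; exact hρ
    _ ≤ 2 ^ i := Nat.pow_le_pow_right (by norm_num) hi

theorem land_eq {m ρ : ℕ} (hρ : ρ < 16384) : m &&& ρ = ρ ↔ dec ρ ⊆ dec m := by
  constructor
  · intro h n hn
    rw [mem_dec] at hn ⊢
    refine ⟨hn.1, ?_⟩
    have h1 := congrArg (fun k => Nat.testBit k n) h
    simp only [Nat.testBit_land, hn.2, Bool.and_true] at h1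
    exact h1
  · intro h
    apply Nat.eq_of_testBit_eq
    intro i
    rw [Nat.testBit_land]
    rcases Nat.lt_or_ge i 15 with hi | hi
    · cases h1 : ρ.testBit i with
      | false => simp
      | true =>
        have h2 := h (mem_dec.2 ⟨hi, h1⟩)
        rw [mem_dec] at h2
        simp [h2.2]
    · rw [testBit_big hρ (by omega)]
      simp

theorem dec_swap {m z v : ℕ} (hz : z ∈ dec m) (hv : v < 15) (hzv : z ≠ v) :
    dec ((m ^^^ 2 ^ z) ||| 2 ^ v) = insert v ((dec m).erase z) := by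
  rw [mem_dec] at hz
  ext n
  rw [mem_insert, mem_erase, mem_dec, mem_dec, Nat.testBit_lor, Nat.testBit_xor,
    Nat.testBit_two_pow, Nat.testBit_two_pow]
  by_cases h1 : n = v
  · subst h1
    simp [hv]
  · by_cases h2 : n = z
    · subst h2
      simp [hz.2, h1, Ne.symm h1]
    · simp [h1, h2, Ne.symm h1, Ne.symm h2]

theorem decL_starB (l : List ℕ) (ρ : ℕ) (hρ : ρ < 16384) :
    decL (starB l ρ 14) = star (decL l) (dec ρ) 14 := by
  have h13 : 14 ∉ dec ρ := by
    rw [mem_dec]
    rintro ⟨_, h⟩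
    rw [testBit_big hρ le_rfl] at h
    exact absurd h (by decide)
  ext A
  rw [mem_decL, mem_star]
  constructor
  · rintro ⟨m', hm', rfl⟩
    rw [starB, List.mem_flatMap] at hm'
    obtain ⟨m, hm, h1⟩ := hm'
    split_ifs at h1 with h2
    · rw [List.mem_map] at h1
      obtain ⟨z, hz, rfl⟩ := h1
      rw [mem_bits] at hz
      have h3 := (land_eq hρ).1 h2
      right
      refine ⟨dec m, mem_decL.2 ⟨m, hm, rfl⟩, h3, z, hz, ?_⟩
      rw [dec_swap (v := 14) (h3 hz) (by norm_num) (fun h => h13 (by rw [← h]; exact hz))]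
    · rw [List.mem_singleton] at h1
      subst h1
      left
      exact ⟨mem_decL.2 ⟨m', hm, rfl⟩, fun h => h2 ((land_eq hρ).2 h)⟩
  · rintro (⟨h1, h2⟩ | ⟨F, h1, h2, z, hz, rfl⟩)
    · obtain ⟨m, hm, rfl⟩ := mem_decL.1 h1
      refine ⟨m, ?_, rfl⟩
      rw [starB, List.mem_flatMap]
      refine ⟨m, hm, ?_⟩
      rw [if_neg (fun h => h2 ((land_eq hρ).1 h))]
      exact List.mem_singleton_self _
    · obtain ⟨m, hm, rfl⟩ := mem_decL.1 h1
      refine ⟨(m ^^^ 2 ^ z) ||| 2 ^ 14, ?_, ?_⟩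
      · rw [starB, List.mem_flatMap]
        refine ⟨m, hm, ?_⟩
        rw [if_pos ((land_eq hρ).2 h2), List.mem_map]
        exact ⟨z, mem_bits.2 hz, rfl⟩
      · rw [dec_swap (v := 14) (h2 hz) (by norm_num) (fun h => h13 (by rw [← h]; exact hz))]

def sameB (l l' : List ℕ) : Bool :=
  l.all (fun m => l'.contains m) && l'.all (fun m => l.contains m)

theorem decL_of_sameB {l l' : List ℕ} (h : sameB l l' = true) : decL l = decL l' := by
  rw [sameB, Bool.and_eq_true, List.all_eq_true, List.all_eq_true] at h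
  ext A
  rw [mem_decL, mem_decL]
  constructor
  · rintro ⟨m, hm, rfl⟩
    exact ⟨m, by simpa using h.1 m hm, rfl⟩
  · rintro ⟨m, hm, rfl⟩
    exact ⟨m, by simpa using h.2 m hm, rfl⟩

def applyB (l : List ℕ) (ρ ρ' : ℕ) : List ℕ :=
  l.filter (fun m => !(decide (m &&& ρ = ρ))) ++ (bits ρ).map (fun z => (ρ ^^^ 2 ^ z) ||| ρ')

def okStep (l l' : List ℕ) (ρ ρ' : ℕ) : Bool :=
  sameB (starB l ρ 14) (starB l' ρ' 14) && l'.all (fun m => decide (m < 16384)) &&
    decide (ρ < 16384) && decide (ρ' < 16384) && decide (ρ ≠ 0) && decide (ρ' ≠ 0)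

def chainB : List ℕ → List (ℕ × ℕ) → List ℕ → Bool
  | l, [], t => sameB l t
  | l, r :: ms, t => okStep l (applyB l r.1 r.2) r.1 r.2 && chainB (applyB l r.1 r.2) ms t

theorem dec_nonempty {ρ : ℕ} (h1 : ρ < 16384) (h2 : ρ ≠ 0) : (dec ρ).Nonempty := by
  by_contra hcon
  rw [not_nonempty_iff_eq_empty] at hcon
  apply h2
  apply Nat.eq_of_testBit_eq
  intro i
  rw [Nat.zero_testBit]
  rcases Nat.lt_or_ge i 15 with hi | hi
  · by_contra h3
    rw [Bool.not_eq_false] at h3
    have : i ∈ dec ρ := mem_dec.2 ⟨hi, h3⟩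
    rw [hcon] at this
    exact absurd this (notMem_empty _)
  · exact testBit_big h1 (by omega)

theorem notMem_dec {m : ℕ} (h : m < 16384) : 14 ∉ dec m := by
  rw [mem_dec, testBit_big h le_rfl]
  rintro ⟨-, h⟩
  exact absurd h (by decide)

theorem chain_homeo (ms : List (ℕ × ℕ)) :
    ∀ (l t : List ℕ), (∀ m ∈ l, m < 16384) → chainB l ms t = true →
      Nonempty (Sp (decL t) ≃ₜ Sp (decL l)) := by
  induction ms with
  | nil =>
    intro l t _ h
    rw [chainB] at h
    rw [decL_of_sameB h]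
    exact ⟨Homeomorph.refl _⟩
  | cons r ms ih =>
    intro l t hl h
    rw [chainB, Bool.and_eq_true] at h
    obtain ⟨h1, h2⟩ := h
    simp only [okStep, Bool.and_eq_true, decide_eq_true_eq, List.all_eq_true] at h1
    obtain ⟨⟨⟨⟨⟨h3, h4⟩, h5⟩, h6⟩, h7⟩, h8⟩ := h1
    obtain ⟨e1⟩ := ih (applyB l r.1 r.2) t h4 h2
    have h13 : ∀ l' : List ℕ, (∀ m ∈ l', m < 16384) → ∀ β ∈ decL l', 14 ∉ β := by
      intro l' hl' β hβ
      obtain ⟨m, hm, rfl⟩ := mem_decL.1 hβ
      exact notMem_dec (hl' m hm)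
    have heq : star (decL l) (dec r.1) 14 = star (decL (applyB l r.1 r.2)) (dec r.2) 14 := by
      rw [← decL_starB l r.1 h5, ← decL_starB _ r.2 h6]
      exact decL_of_sameB h3
    obtain ⟨a1⟩ := star_homeo (decL l) (dec r.1) 14 (dec_nonempty h5 h7) (h13 l hl) (notMem_dec h5)
    obtain ⟨a2⟩ := star_homeo (decL (applyB l r.1 r.2)) (dec r.2) 14 (dec_nonempty h6 h8)
      (h13 _ h4) (notMem_dec h6)
    rw [← heq] at a2
    exact ⟨(e1.trans a2.symm).trans a1⟩

/-- the facets of the ball -/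
def Dm : List ℕ := [
  195, 269, 281, 344, 354, 360, 396, 424, 706, 720, 785, 834, 848, 1050, 1112, 1185, 1314, 1440,
  1569, 1570, 2115, 2146, 2179, 2594, 2690, 3137, 3201, 4110, 4118, 4236, 4244, 4257, 4264, 4289,
  4304, 4865, 4866, 5138, 5185, 5200, 5633, 5634, 8213, 8296, 8340, 8453, 8580, 8721, 8737, 8848,
  9226, 9288, 9474, 9600, 10336, 10784, 10880, 11328, 11392, 12298, 12321, 12328, 12545, 12546]

/-- the bistellar flips -/
def moves : List (ℕ × ℕ) := [
  (30, 4096), (4124, 64), (4110, 256), (4108, 320), (258, 4108), (4420, 128), (324, 136),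
  (4364, 32), (4164, 144), (4424, 8192), (136, 324), (4184, 1024), (76, 272), (4116, 130),
  (4168, 9216), (4120, 1026), (5128, 8194), (272, 76), (12352, 1280), (4304, 512), (4416, 1152),
  (130, 4116), (4356, 160), (4360, 8224), (1344, 8320), (196, 272), (4752, 2048), (4736, 2112),
  (68, 280), (448, 8208), (4608, 2128), (13312, 258), (9472, 130), (4480, 1056), (400, 8196),
  (208, 8704), (4240, 2052), (704, 10240), (28, 257), (276, 8193), (292, 136), (36, 4232),
  (4288, 3072), (192, 11264), (8272, 768), (8456, 96), (8512, 544), (8464, 513), (8768, 2080),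
  (5376, 34), (513, 8464), (2052, 4240), (8464, 513), (8480, 4608), (2080, 8768), (4384, 514),
  (8960, 4097), (10752, 192), (12800, 33), (192, 10752), (6160, 192), (800, 66), (12544, 3),
  (2064, 704), (4130, 1536), (130, 9472), (3, 12544), (2560, 8384), (4640, 1025), (8384, 2560),
  (5152, 129), (8768, 2080), (5248, 2049), (273, 520), (6272, 65), (608, 2050), (2624, 130),
  (520, 273), (6144, 1089), (2240, 3)]

theorem chain_ok : chainB [29, 30] moves Dm = true := by decide +kernel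

theorem start_star : decL [29, 30] = star {s4} {0, 1} 4 := by decide +kernel

theorem Dm_ball : Nonempty (Sp (decL Dm) ≃ₜ
    Metric.closedBall (0 : EuclideanSpace ℝ (Fin 3)) 1) := by
  obtain ⟨e1⟩ := chain_homeo moves [29, 30] Dm (by decide) chain_ok
  rw [start_star] at e1
  obtain ⟨e2⟩ := star_homeo {s4} {0, 1} 4 ⟨0, by simp⟩ (by
    intro F hF
    rw [mem_singleton] at hF
    subst hF
    decide) (by decide)
  obtain ⟨e3⟩ := simplex_ball s4 3 (by decide)
  exact ⟨(e1.trans e2).trans e3⟩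

end Pool.Agent.Helper65K9.NL
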