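import Mathlib
import Pool.Agent.H933R3.Defs

/-!
# An obstruction to local constructibility

Let `A₀` be a face of codimension two around which the facets of `K` form one cycle, and let `ψ` be
a flat transition function with values in a group on the complement of `A₀`. If `K` is locally
constructible then the holonomy of `ψ` is cyclic.
-/

set_option autoImplicit false
set_option linter.unusedSectionVars false

namespace Pool.Agent.Helper65K9.NL

open Finset Pool.Agent.H933R3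

variable {V Γ : Type} [DecidableEq V] [Group Γ]

/-- `R` lies in two distinct facets -/
def Dbl (K : Finset (Finset V)) (R : Finset V) : Prop :=
  ∃ F F', IsFacet K F ∧ IsFacet K F' ∧ F ≠ F' ∧ R ⊆ F ∧ R ⊆ F'

/-- The facets around `A₀` form one cycle: two of the faces `R`, `R'` separate it. -/
def OneCycle (d : ℕ) (K : Finset (Finset V)) (A₀ : Finset V) : Prop :=
  ∀ R R' : Finset V, R ≠ R' → A₀ ⊆ R → A₀ ⊆ R' → R.card = d → R'.card = d → Dbl K R' →
    ∀ F F', IsFacet K F → IsFacet K F' → F ≠ F' → R ⊆ F → R ⊆ F' →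
      ∃ s : Finset V → Bool, s F ≠ s F' ∧ ∀ X Y, IsFacet K X → IsFacet K Y → ∀ R'' : Finset V,
        A₀ ⊆ R'' → R''.card = d → R'' ≠ R → R'' ≠ R' → R'' ⊆ X → R'' ⊆ Y → s X = s Y

/-- `ψ` is flat on the complement of `A₀` -/
def FlatOff (K : Finset (Finset V)) (A₀ : Finset V) (ψ : V → V → Γ) : Prop :=
  ∀ F, IsFacet K F → ∀ u ∈ F, u ∉ A₀ → ∀ v ∈ F, v ∉ A₀ → ∀ w ∈ F, w ∉ A₀ →
    ψ u v * ψ v w = ψ u w

/-- the invariant of the stages -/
def Inv (d : ℕ) (K : Finset (Finset V)) (A₀ : Finset V) (ψ : V → V → Γ)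
    (𝓕 G : Finset (Finset V)) (h : Finset V → V → Γ) (c : Γ) : Prop :=
  (∀ F ∈ 𝓕, IsFacet K F) ∧
  (∀ R ∈ G, R.card = d ∧ ∃ F ∈ 𝓕, ∃ F' ∈ 𝓕, F ≠ F' ∧ R ⊆ F ∧ R ⊆ F') ∧
  (∀ F ∈ 𝓕, ∀ u ∈ F, u ∉ A₀ → ∀ v ∈ F, v ∉ A₀ → h F u * ψ u v = h F v) ∧
  (∀ R ∈ G, ∀ F ∈ 𝓕, ∀ F' ∈ 𝓕, R ⊆ F → R ⊆ F' → ∀ v ∈ R, v ∉ A₀ →
    ∃ k : ℤ, h F' v = c ^ k * h F v) ∧
  (c = 1 ∨ ∀ R, A₀ ⊆ R → R.card = d → Dbl K R → R ∈ G)

/-- along a chain of glued facets containing `u`, the values at `u` differ by a power of `c` -/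
theorem chain_rel {d : ℕ} {K : Finset (Finset V)} {A₀ : Finset V} {ψ : V → V → Γ}
    {𝓕 G : Finset (Finset V)} {h : Finset V → V → Γ} {c : Γ} (hI : Inv d K A₀ ψ 𝓕 G h c)
    {A F F' : Finset V} (hs : SameFace 𝓕 G A F F') {u : V} (hu : u ∈ A) (hu0 : u ∉ A₀) :
    ∃ k : ℤ, h F' u = c ^ k * h F u := by
  induction hs with
  | refl => exact ⟨0, by simp⟩
  | @tail Y Z hYZ hstep ih =>
    obtain ⟨hY, hZ, R, hR, h1, h2, h3⟩ := hstep
    obtain ⟨k, hk⟩ := ih
    obtain ⟨l, hl⟩ := hI.2.2.2.1 R hR Y hY Z hZ h2 h3 u (h1 hu) hu0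
    exact ⟨l + k, by rw [hl, hk, zpow_add, mul_assoc]⟩

theorem chain_side {d : ℕ} {K : Finset (Finset V)} {A₀ : Finset V} {ψ : V → V → Γ}
    {𝓕 G : Finset (Finset V)} {h : Finset V → V → Γ} {c : Γ} (hI : Inv d K A₀ ψ 𝓕 G h c)
    {F F' : Finset V} (hs : SameFace 𝓕 G A₀ F F') {R R' : Finset V} (hR : R ∉ G) (hR' : R' ∉ G)
    {s : Finset V → Bool} (hside : ∀ X Y, IsFacet K X → IsFacet K Y → ∀ R'' : Finset V,
        A₀ ⊆ R'' → R''.card = d → R'' ≠ R → R'' ≠ R' → R'' ⊆ X → R'' ⊆ Y → s X = s Y) :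
    s F = s F' := by
  induction hs with
  | refl => rfl
  | @tail Y Z hYZ hstep ih =>
    obtain ⟨hY, hZ, R'', hR'', h1, h2, h3⟩ := hstep
    rw [ih]
    refine hside Y Z (hI.1 Y hY) (hI.1 Z hZ) R'' h1 (hI.2.1 R'' hR'').1 ?_ ?_ h2 h3
    · rintro rfl
      exact hR hR''
    · rintro rfl
      exact hR' hR''

theorem stage_inv {d : ℕ} {K : Finset (Finset V)} (h2 : AtMostTwo d K) {A₀ : Finset V}
    (hA₀ : A₀.card + 1 = d) (hcyc : OneCycle d K A₀) {ψ : V → V → Γ} (hψ : FlatOff K A₀ ψ)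
    {𝓕 G : Finset (Finset V)} (hst : LCStage d K 𝓕 G) :
    ∃ (h : Finset V → V → Γ) (c : Γ), Inv d K A₀ ψ 𝓕 G h c := by
  induction hst with
  | start F hF =>
    -- choose a base vertex
    by_cases hne : ∃ b ∈ F, b ∉ A₀
    · obtain ⟨b, hb, hb0⟩ := hne
      refine ⟨fun _ v => ψ b v, 1, ?_, ?_, ?_, ?_, Or.inl rfl⟩
      · intro X hX
        rw [mem_singleton] at hX
        exact hX ▸ hF
      · intro R hR
        exact absurd hR (notMem_empty _)
      · intro X hX u hu hu0 v hv hv0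
        rw [mem_singleton] at hX
        subst hX
        exact hψ X hF b hb hb0 u hu hu0 v hv hv0
      · intro R hR
        exact absurd hR (notMem_empty _)
    · push Not at hne
      refine ⟨fun _ _ => 1, 1, ?_, ?_, ?_, ?_, Or.inl rfl⟩
      · intro X hX
        rw [mem_singleton] at hX
        exact hX ▸ hF
      · intro R hR
        exact absurd hR (notMem_empty _)
      · intro X hX u hu hu0
        rw [mem_singleton] at hX
        subst hX
        exact absurd (hne u hu) hu0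
      · intro R hR
        exact absurd hR (notMem_empty _)
  | attach 𝓕 G F F' R hst hF hF' hn hR h3 h4 hG ih =>
    obtain ⟨h, c, i1, i2, i3, i4, i5⟩ := ih
    have hne : F ≠ F' := fun e => hn (e ▸ hF)
    -- a vertex of `R` outside `A₀`
    obtain ⟨b, hb, hb0⟩ : ∃ b ∈ R, b ∉ A₀ := by
      by_contra hcon
      push Not at hcon
      have := card_le_card (show R ⊆ A₀ from hcon)
      omega
    have only : ∀ X ∈ 𝓕, R ⊆ X → X = F := by
      intro X hX hRX
      rcases h2 R hR F' F X hF' (i1 F hF) (i1 X hX) h4 h3 hRX with e | e | e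
      · exact absurd e.symm hne
      · exact absurd (e ▸ hX) hn
      · exact e.symm
    have old : ∀ R' ∈ G, ¬ R' ⊆ F' := by
      intro R' hR' hsub
      obtain ⟨hc, X, hX, Y, hY, hXY, h5, h6⟩ := i2 R' hR'
      rcases h2 R' hc X Y F' (i1 X hX) (i1 Y hY) hF' h5 h6 hsub with e | e | e
      · exact hXY e
      · exact hn (e ▸ hX)
      · exact hn (e ▸ hY)
    let h' : Finset V → V → Γ := fun X v => if X = F' then h F b * ψ b v else h X v
    have e1 : ∀ v, h' F' v = h F b * ψ b v := fun v => if_pos rfl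
    have e2 : ∀ X ∈ 𝓕, ∀ v, h' X v = h X v := fun X hX v => if_neg (fun e : X = F' => hn (e ▸ hX))
    refine ⟨h', c, ?_, ?_, ?_, ?_, ?_⟩
    · intro X hX
      rw [mem_insert] at hX
      rcases hX with rfl | hX
      · exact hF'
      · exact i1 X hX
    · intro R' hR'
      rw [mem_insert] at hR'
      rcases hR' with rfl | hR'
      · exact ⟨hR, F, mem_insert_of_mem hF, F', mem_insert_self _ _, hne, h3, h4⟩
      · obtain ⟨hc, X, hX, Y, hY, hXY⟩ := i2 R' hR'
        exact ⟨hc, X, mem_insert_of_mem hX, Y, mem_insert_of_mem hY, hXY⟩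
    · intro X hX u hu hu0 v hv hv0
      rw [mem_insert] at hX
      rcases hX with rfl | hX
      · rw [e1, e1, mul_assoc, hψ X hF' b (h4 hb) hb0 u hu hu0 v hv hv0]
      · rw [e2 X hX, e2 X hX]
        exact i3 X hX u hu hu0 v hv hv0
    · intro R' hR' X hX Y hY h5 h6 v hv hv0
      rw [mem_insert] at hR' hX hY
      rcases hR' with rfl | hR'
      · have hFv : h F b * ψ b v = h F v := i3 F hF b (h3 hb) hb0 v (h3 hv) hv0
        refine ⟨0, ?_⟩
        rw [zpow_zero, one_mul]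
        rcases hX with rfl | hX <;> rcases hY with rfl | hY
        · rfl
        · rw [e1, e2 Y hY, only Y hY h6, hFv]
        · rw [e1, e2 X hX, only X hX h5, hFv]
        · rw [e2 X hX, e2 Y hY, only X hX h5, only Y hY h6]
      · rcases hX with rfl | hX
        · exact absurd h5 (old R' hR')
        · rcases hY with rfl | hY
          · exact absurd h6 (old R' hR')
          · rw [e2 X hX, e2 Y hY]
            exact i4 R' hR' X hX Y hY h5 h6 v hv hv0
    · rcases i5 with i5 | i5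
      · exact Or.inl i5
      · exact Or.inr fun R' h5 h6 h7 => mem_insert_of_mem (i5 R' h5 h6 h7)
  | glue 𝓕 G F F' R A hst hF hF' hne hR h3 h4 hG hA hAR hs ih =>
    obtain ⟨h, c, hI⟩ := ih
    obtain ⟨i1, i2, i3, i4, i5⟩ := hI
    have only : ∀ X ∈ 𝓕, R ⊆ X → X = F ∨ X = F' := by
      intro X hX hRX
      rcases h2 R hR F F' X (i1 F hF) (i1 F' hF') (i1 X hX) h3 h4 hRX with e | e | e
      · exact absurd e hne
      · exact Or.inl e.symm
      · exact Or.inr e.symm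
    have n1 : ∀ R' ∈ insert R G, R'.card = d ∧ ∃ F ∈ 𝓕, ∃ F' ∈ 𝓕, F ≠ F' ∧ R' ⊆ F ∧ R' ⊆ F' := by
      intro R' hR'
      rw [mem_insert] at hR'
      rcases hR' with rfl | hR'
      · exact ⟨hR, F, hF, F', hF', hne, h3, h4⟩
      · exact i2 R' hR'
    -- from a relation between `F` and `F'` to all pairs
    have pairs : ∀ (c' : Γ) (v : V), (∃ k : ℤ, h F' v = c' ^ k * h F v) → ∀ X ∈ 𝓕, ∀ Y ∈ 𝓕,
        R ⊆ X → R ⊆ Y → ∃ k : ℤ, h Y v = c' ^ k * h X v := by
      rintro c' v ⟨k, hk⟩ X hX Y hY h5 h6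
      rcases only X hX h5 with rfl | rfl <;> rcases only Y hY h6 with rfl | rfl
      · exact ⟨0, by simp⟩
      · exact ⟨k, hk⟩
      · exact ⟨-k, by rw [hk, ← mul_assoc, ← zpow_add, neg_add_cancel, zpow_zero, one_mul]⟩
      · exact ⟨0, by simp⟩
    by_cases hAA : A = A₀
    · subst hAA
      rcases i5 with i5 | i5
      · -- the face `A` is used
        subst i5
        obtain ⟨v₀, hv₀⟩ : ∃ v₀, R \ A = {v₀} := by
          rw [← card_eq_one, card_sdiff_of_subset hAR]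
          omega
        refine ⟨h, h F' v₀ * (h F v₀)⁻¹, i1, n1, i3, ?_, Or.inr ?_⟩
        · intro R' hR' X hX Y hY h5 h6 v hv hv0
          rw [mem_insert] at hR'
          rcases hR' with rfl | hR'
          · have hvv : v = v₀ := by
              have : v ∈ R' \ A := mem_sdiff.2 ⟨hv, hv0⟩
              rw [hv₀, mem_singleton] at this
              exact this
            subst hvv
            refine pairs _ v ⟨1, ?_⟩ X hX Y hY h5 h6
            rw [zpow_one, inv_mul_cancel_right]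
          · obtain ⟨k, hk⟩ := i4 R' hR' X hX Y hY h5 h6 v hv hv0
            refine ⟨0, ?_⟩
            rw [hk, one_zpow, zpow_zero]
        · intro R' h5 h6 h7
          by_contra hcon
          rw [mem_insert, not_or] at hcon
          obtain ⟨s, hs1, hs2⟩ := hcyc R R' (fun e => hcon.1 e.symm) hAR h5 hR h6 h7 F F'
            (i1 F hF) (i1 F' hF') hne h3 h4
          exact hs1 (chain_side ⟨i1, i2, i3, i4, Or.inl rfl⟩ hs hG hcon.2 hs2)
      · exact absurd (i5 R hAR hR ⟨F, F', i1 F hF, i1 F' hF', hne, h3, h4⟩) hG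
    · -- a vertex of `A` outside `A₀`
      obtain ⟨u, hu, hu0⟩ : ∃ u ∈ A, u ∉ A₀ := by
        by_contra hcon
        push Not at hcon
        exact hAA (eq_of_subset_of_card_le hcon (by omega))
      obtain ⟨k, hk⟩ := chain_rel ⟨i1, i2, i3, i4, i5⟩ hs hu hu0
      refine ⟨h, c, i1, n1, i3, ?_, ?_⟩
      · intro R' hR' X hX Y hY h5 h6 v hv hv0
        rw [mem_insert] at hR'
        rcases hR' with rfl | hR'
        · refine pairs c v ⟨k, ?_⟩ X hX Y hY h5 h6
          rw [← i3 F' hF' u (h4 (hAR hu)) hu0 v (h4 hv) hv0,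
            ← i3 F hF u (h3 (hAR hu)) hu0 v (h3 hv) hv0, hk, mul_assoc]
        · exact i4 R' hR' X hX Y hY h5 h6 v hv hv0
      · rcases i5 with i5 | i5
        · exact Or.inl i5
        · exact Or.inr fun R' h5 h6 h7 => mem_insert_of_mem (i5 R' h5 h6 h7)

/-- **The obstruction.** If `K` is locally constructible then a flat transition function off `A₀`
is equivalent to one with values in a cyclic group. -/
theorem cyclic_of_isLC {d : ℕ} {K : Finset (Finset V)} (hK : IsCx K) (hLC : IsLC d K)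
    {A₀ : Finset V} (hA₀ : A₀.card + 1 = d) (hcyc : OneCycle d K A₀) {ψ : V → V → Γ}
    (hψ : FlatOff K A₀ ψ) :
    ∃ (H : V → Γ) (c : Γ), ∀ F, IsFacet K F → ∀ u ∈ F, u ∉ A₀ → ∀ v ∈ F, v ∉ A₀ →
      ∃ k : ℤ, H u * ψ u v = c ^ k * H v := by
  classical
  obtain ⟨-, h2, 𝓕, G, hst, hall, hsame⟩ := hLC
  obtain ⟨h, c, hI⟩ := stage_inv h2 hA₀ hcyc hψ hst
  -- a facet containing a given vertex
  let Fc : V → Finset V := fun v => if hv : ∃ F, IsFacet K F ∧ v ∈ F then hv.choose else ∅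
  have hFc : ∀ v F, IsFacet K F → v ∈ F → IsFacet K (Fc v) ∧ v ∈ Fc v := by
    intro v F hF hv
    have hex : ∃ F, IsFacet K F ∧ v ∈ F := ⟨F, hF, hv⟩
    simp only [Fc, dif_pos hex]
    exact hex.choose_spec
  have key : ∀ v F, IsFacet K F → v ∈ F → v ∉ A₀ → ∃ k : ℤ, h F v = c ^ k * h (Fc v) v := by
    intro v F hF hv hv0
    obtain ⟨h3, h4⟩ := hFc v F hF hv
    have h5 : SameFace 𝓕 G {v} (Fc v) F :=
      hsame {v} (hK.2 F hF.1 _ (singleton_subset_iff.2 hv)) (Fc v) (hall _ h3) F (hall _ hF)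
        (singleton_subset_iff.2 h4) (singleton_subset_iff.2 hv)
    exact chain_rel hI h5 (mem_singleton_self v) hv0
  refine ⟨fun v => h (Fc v) v, c, ?_⟩
  intro F hF u hu hu0 v hv hv0
  obtain ⟨k, hk⟩ := key u F hF hu hu0
  obtain ⟨l, hl⟩ := key v F hF hv hv0
  have h3 := hI.2.2.1 F (hall F hF) u hu hu0 v hv hv0
  rw [hk, hl, mul_assoc] at h3
  refine ⟨-k + l, ?_⟩
  rw [zpow_add, mul_assoc, ← h3, ← mul_assoc, ← zpow_add, neg_add_cancel, zpow_zero, one_mul]

end Pool.Agent.Helper65K9.NL
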