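import Mathlib
import Pool.Agent.Helper65K9.NL.Mk
import Pool.Agent.Helper65K9.NL.Obs

/-!
# A triangulated 3-ball which is not locally constructible

The ball has the spanning edge `{0, 1}`, which is knotted: the fundamental group of its complement
maps onto the symmetric group of three letters.
-/

set_option autoImplicit false

namespace Pool.Agent.Helper65K9.NL

open Finset Pool.Agent.H933R3 Pool.Agent.Helper175.NS

/-- the set of vertices with the given bit mask -/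
def decF (m : ℕ) : Finset (Fin 14) := univ.filter (fun i => m.testBit i.val = true)

theorem mem_decF {m : ℕ} {i : Fin 14} : i ∈ decF m ↔ m.testBit i.val = true := by
  simp [decF]

/-- the 3-ball with the facets `Dm` -/
def B14 : Finset (Finset (Fin 14)) := univ.filter (fun s => ∃ m ∈ Dm, s ⊆ decF m)

theorem mem_B14 {s : Finset (Fin 14)} : s ∈ B14 ↔ ∃ m ∈ Dm, s ⊆ decF m := by
  simp [B14]

theorem card_decF : ∀ m ∈ Dm, (decF m).card = 4 := by decide +kernel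

theorem isCx_B14 : IsCx B14 := by
  refine ⟨mem_B14.2 ⟨195, by decide, empty_subset _⟩, fun σ hσ τ hτ => ?_⟩
  obtain ⟨m, hm, h⟩ := mem_B14.1 hσ
  exact mem_B14.2 ⟨m, hm, hτ.trans h⟩

theorem isFacet_B14 {F : Finset (Fin 14)} : IsFacet B14 F ↔ ∃ m ∈ Dm, decF m = F := by
  constructor
  · rintro ⟨h1, h2⟩
    obtain ⟨m, hm, h⟩ := mem_B14.1 h1
    exact ⟨m, hm, h2 _ (mem_B14.2 ⟨m, hm, Subset.refl _⟩) h⟩
  · rintro ⟨m, hm, rfl⟩
    refine ⟨mem_B14.2 ⟨m, hm, Subset.refl _⟩, fun G hG hsub => ?_⟩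
    obtain ⟨m', hm', h⟩ := mem_B14.1 hG
    have h3 := card_decF m hm
    have h4 := card_decF m' hm'
    have h5 : decF m = decF m' := eq_of_subset_of_card_le (hsub.trans h) (by omega)
    exact Subset.antisymm (h5 ▸ h) hsub

/-! ### It is a ball -/

theorem Dm_small : ∀ m ∈ Dm, m < 16384 := by decide

theorem image_val {m : ℕ} (hm : m ∈ Dm) : (decF m).image Fin.val = dec m := by
  ext k
  rw [mem_image]
  constructor
  · rintro ⟨i, hi, rfl⟩
    exact mem_dec.2 ⟨by omega, mem_decF.1 hi⟩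
  · intro hk
    have h1 := mem_dec.1 hk
    have h2 : k < 14 := by
      by_contra hcon
      rw [testBit_big (Dm_small m hm) (by omega)] at h1
      exact absurd h1.2 (by decide)
    exact ⟨⟨k, h2⟩, mem_decF.2 h1.2, rfl⟩

/-- the set of facets -/
def Gs : Finset (Finset (Fin 14)) := (Dm.map decF).toFinset

theorem mem_Gs {F : Finset (Fin 14)} : F ∈ Gs ↔ ∃ m ∈ Dm, decF m = F := by
  rw [Gs, List.mem_toFinset, List.mem_map]

theorem Gs_image : Gs.image (fun F => F.image Fin.val) = decL Dm := by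
  ext A
  rw [mem_image, mem_decL]
  constructor
  · rintro ⟨F, hF, rfl⟩
    obtain ⟨m, hm, rfl⟩ := mem_Gs.1 hF
    exact ⟨m, hm, (image_val hm).symm⟩
  · rintro ⟨m, hm, rfl⟩
    exact ⟨decF m, mem_Gs.2 ⟨m, hm, rfl⟩, image_val hm⟩

theorem realization_eq : realization B14 = Sp Gs := by
  ext x
  constructor
  · rintro ⟨h0, h1, σ, hσ, h2⟩
    obtain ⟨m, hm, h3⟩ := mem_B14.1 hσ
    refine ⟨h0, decF m, mem_Gs.2 ⟨m, hm, rfl⟩, fun i hi => h2 i (fun h => hi (h3 h)), ?_⟩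
    rw [← h1]
    exact sum_subset (subset_univ _) (fun i _ hi => h2 i (fun h => hi (h3 h)))
  · rintro ⟨h0, F, hF, h1, h2⟩
    obtain ⟨m, hm, rfl⟩ := mem_Gs.1 hF
    refine ⟨h0, ?_, decF m, mem_B14.2 ⟨m, hm, Subset.refl _⟩, h1⟩
    rw [← h2]
    exact (sum_subset (subset_univ _) (fun i _ hi => h1 i hi)).symm

theorem isBall_B14 : IsBall 3 B14 := by
  unfold IsBall
  rw [realization_eq]
  obtain ⟨e1⟩ := relabel_homeo Gs (Fin.val : Fin 14 → ℕ) univ (fun F _ => subset_univ F)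
    (Fin.val_injective.injOn)
  rw [Gs_image] at e1
  obtain ⟨e2⟩ := Dm_ball
  exact ⟨e1.symm.trans e2⟩

/-! ### The transition function -/

abbrev S3 : Type := Equiv.Perm (Fin 3)

def r1 : S3 := ⟨![1, 2, 0], ![2, 0, 1], by decide, by decide⟩
def r2 : S3 := ⟨![2, 0, 1], ![1, 2, 0], by decide, by decide⟩
def s0 : S3 := ⟨![0, 2, 1], ![0, 2, 1], by decide, by decide⟩
def s1 : S3 := ⟨![2, 1, 0], ![2, 1, 0], by decide, by decide⟩
def s2 : S3 := ⟨![1, 0, 2], ![1, 0, 2], by decide, by decide⟩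

/-- the nontrivial values for `u < v` -/
def tab : List (ℕ × S3) := [
  (52, s1), (54, s1), (58, r2), (61, r2), (72, s1), (74, s0), (86, s1), (89, r2), (91, r2),
  (93, r2), (104, s1), (106, s0), (107, s0), (109, s0), (137, s1), (140, r1), (154, r1),
  (156, s2), (172, s0), (205, r2)]

/-- the transition function -/
def psi (u v : ℕ) : S3 :=
  if u < v then (tab.lookup (16 * u + v)).getD 1 else
    if v < u then ((tab.lookup (16 * v + u)).getD 1)⁻¹ else 1

/-- the transition function on the vertices of the ball -/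
def psiF (u v : Fin 14) : S3 := psi u.val v.val

theorem flat_bits : ∀ m ∈ Dm, ∀ u ∈ bits m, 1 < u → ∀ v ∈ bits m, 1 < v → ∀ w ∈ bits m, 1 < w →
    psi u v * psi v w = psi u w := by decide +kernel

/-- the knotted edge -/
def A₀ : Finset (Fin 14) := {0, 1}

theorem one_lt {u : Fin 14} (h : u ∉ A₀) : 1 < u.val := by
  by_contra hcon
  apply h
  unfold A₀
  rw [mem_insert, mem_singleton]
  have : u.val = 0 ∨ u.val = 1 := by omega
  rcases this with e | e
  · exact Or.inl (Fin.ext e)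
  · exact Or.inr (Fin.ext e)

theorem mem_bits_of {m : ℕ} {u : Fin 14} (h : u ∈ decF m) : u.val ∈ bits m := by
  rw [mem_bits, mem_dec]
  exact ⟨by omega, mem_decF.1 h⟩

theorem flat : FlatOff B14 A₀ psiF := by
  intro F hF u hu hu0 v hv hv0 w hw hw0
  obtain ⟨m, hm, rfl⟩ := isFacet_B14.1 hF
  exact flat_bits m hm u.val (mem_bits_of hu) (one_lt hu0) v.val (mem_bits_of hv) (one_lt hv0)
    w.val (mem_bits_of hw) (one_lt hw0)

/-! ### The facets around the edge -/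

/-- the masks of the facets around the edge -/
def Sm : List ℕ := [195, 2115, 2179]

theorem mem_Sm : ∀ m ∈ Dm, m.testBit 0 = true → m.testBit 1 = true → m ∈ Sm := by decide +kernel

theorem facet_Sm {F : Finset (Fin 14)} (hF : IsFacet B14 F) (h : A₀ ⊆ F) :
    ∃ m ∈ Sm, decF m = F := by
  obtain ⟨m, hm, rfl⟩ := isFacet_B14.1 hF
  refine ⟨m, mem_Sm m hm ?_ ?_, rfl⟩
  · exact mem_decF.1 (h (show (0 : Fin 14) ∈ A₀ by decide))
  · exact mem_decF.1 (h (show (1 : Fin 14) ∈ A₀ by decide))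

theorem cyc1 : ∀ m ∈ Sm, ∀ m' ∈ Sm, m ≠ m' → ∀ m₀ ∈ Sm, ∀ r < 14, 1 < r → m.testBit r = true →
    m'.testBit r = true → ∀ r' < 14, 1 < r' → m₀.testBit r' = true → r ≠ r' →
    (m.testBit r && m.testBit r') ≠ (m'.testBit r && m'.testBit r') := by decide +kernel

theorem cyc2 : ∀ m₁ ∈ Sm, ∀ r < 14, 1 < r → m₁.testBit r = true →
    ∀ m₀ ∈ Sm, ∀ r' < 14, 1 < r' → m₀.testBit r' = true → r ≠ r' →
    ∀ m ∈ Sm, ∀ m' ∈ Sm, ∀ r'' < 14, 1 < r'' → m.testBit r'' = true → m'.testBit r'' = true →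
    r'' ≠ r → r'' ≠ r' → (m.testBit r && m.testBit r') = (m'.testBit r && m'.testBit r') := by
  decide +kernel

theorem third {R : Finset (Fin 14)} (hR : A₀ ⊆ R) (hc : R.card = 3) :
    ∃ r : Fin 14, r ∉ A₀ ∧ R = insert r A₀ := by
  obtain ⟨r, hr⟩ : ∃ r, R \ A₀ = {r} := by
    rw [← card_eq_one, card_sdiff_of_subset hR, hc]
    decide
  have h1 : r ∈ R \ A₀ := by rw [hr]; exact mem_singleton_self r
  rw [mem_sdiff] at h1
  refine ⟨r, h1.2, ?_⟩
  rw [← sdiff_union_of_subset hR, hr]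
  rfl

theorem oneCycle : OneCycle 3 B14 A₀ := by
  rintro R R' hne hR hR' hc hc' ⟨X₀, -, hX₀, -, -, hRX, -⟩ F F' hF hF' hFF hRF hRF'
  obtain ⟨m, hm, rfl⟩ := facet_Sm hF (hR.trans hRF)
  obtain ⟨m', hm', rfl⟩ := facet_Sm hF' (hR.trans hRF')
  obtain ⟨m₀, hm₀, rfl⟩ := facet_Sm hX₀ (hR'.trans hRX)
  obtain ⟨r, hr, rfl⟩ := third hR hc
  obtain ⟨r', hr', rfl⟩ := third hR' hc'
  have b1 := mem_decF.1 (hRF (mem_insert_self r _))
  have b2 := mem_decF.1 (hRF' (mem_insert_self r _))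
  have b3 := mem_decF.1 (hRX (mem_insert_self r' _))
  have hrr : r.val ≠ r'.val := fun e => hne (by rw [Fin.ext e])
  refine ⟨fun X => decide (r ∈ X) && decide (r' ∈ X), ?_, ?_⟩
  · have := cyc1 m hm m' hm' (fun e => hFF (by rw [e])) m₀ hm₀ r.val r.isLt (one_lt hr) b1 b2
      r'.val r'.isLt (one_lt hr') b3 hrr
    simp only [mem_decF]
    simpa using this
  · intro X Y hX hY R'' hR'' hc'' n1 n2 h3 h4
    obtain ⟨p, hp, rfl⟩ := facet_Sm hX (hR''.trans h3)
    obtain ⟨p', hp', rfl⟩ := facet_Sm hY (hR''.trans h4)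
    obtain ⟨r'', hr'', rfl⟩ := third hR'' hc''
    have b4 := mem_decF.1 (h3 (mem_insert_self r'' _))
    have b5 := mem_decF.1 (h4 (mem_insert_self r'' _))
    have := cyc2 m hm r.val r.isLt (one_lt hr) b1 m₀ hm₀ r'.val r'.isLt (one_lt hr') b3 hrr
      p hp p' hp' r''.val r''.isLt (one_lt hr'') b4 b5 (fun e => n1 (by rw [Fin.ext e]))
      (fun e => n2 (by rw [Fin.ext e]))
    simp only [mem_decF]
    simpa using this

/-! ### It is not locally constructible -/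

theorem edge_facet (u v : Fin 14) (m : ℕ) (hm : m ∈ Dm) (hu : u ∈ decF m) (hv : v ∈ decF m)
    {H : Fin 14 → S3} {c : S3}
    (h : ∀ F, IsFacet B14 F → ∀ u ∈ F, u ∉ A₀ → ∀ v ∈ F, v ∉ A₀ →
      ∃ k : ℤ, H u * psiF u v = c ^ k * H v) (hu0 : u ∉ A₀) (hv0 : v ∉ A₀) :
    ∃ k : ℤ, H u * psiF u v = c ^ k * H v :=
  h _ (isFacet_B14.2 ⟨m, hm, rfl⟩) u hu hu0 v hv hv0

theorem tri {H : Fin 14 → S3} {c : S3} {a b e : Fin 14} (h1 : ∃ k : ℤ, H a * psiF a b = c ^ k * H b)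
    (h2 : ∃ k : ℤ, H b * psiF b e = c ^ k * H e) (h3 : ∃ k : ℤ, H e * psiF e a = c ^ k * H a) :
    ∃ k : ℤ, psiF a b * psiF b e * psiF e a = ((H a)⁻¹ * c * H a) ^ k := by
  obtain ⟨k1, h1⟩ := h1
  obtain ⟨k2, h2⟩ := h2
  obtain ⟨k3, h3⟩ := h3
  refine ⟨k1 + k2 + k3, ?_⟩
  have e1 : H a * (psiF a b * psiF b e * psiF e a) = c ^ (k1 + k2 + k3) * H a := by
    rw [← mul_assoc, ← mul_assoc, h1, mul_assoc (c ^ k1), h2, mul_assoc, mul_assoc, h3, zpow_add,
      zpow_add]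
    simp only [mul_assoc]
  have e2 : ((H a)⁻¹ * c * H a) ^ (k1 + k2 + k3) = (H a)⁻¹ * c ^ (k1 + k2 + k3) * H a := by
    have := conj_zpow (i := k1 + k2 + k3) (a := (H a)⁻¹) (b := c)
    rw [inv_inv] at this
    exact this
  rw [e2, mul_assoc (H a)⁻¹, ← e1, inv_mul_cancel_left]

theorem not_isLC_B14 : ¬ IsLC 3 B14 := by
  intro hLC
  obtain ⟨H, c, h⟩ := cyclic_of_isLC isCx_B14 hLC (A₀ := A₀) (by decide) oneCycle flat
  have n2 : (2 : Fin 14) ∉ A₀ := by decide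
  have n3 : (3 : Fin 14) ∉ A₀ := by decide
  have n4 : (4 : Fin 14) ∉ A₀ := by decide
  have n13 : (13 : Fin 14) ∉ A₀ := by decide
  obtain ⟨k, hk⟩ := tri (edge_facet 2 3 4110 (by decide) (by decide) (by decide) h n2 n3)
    (edge_facet 3 4 1112 (by decide) (by decide) (by decide) h n3 n4)
    (edge_facet 4 2 8213 (by decide) (by decide) (by decide) h n4 n2)
  obtain ⟨l, hl⟩ := tri (edge_facet 2 3 4110 (by decide) (by decide) (by decide) h n2 n3)
    (edge_facet 3 13 9226 (by decide) (by decide) (by decide) h n3 n13)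
    (edge_facet 13 2 8213 (by decide) (by decide) (by decide) h n13 n2)
  have hcomm : (psiF 2 3 * psiF 3 4 * psiF 4 2) * (psiF 2 3 * psiF 3 13 * psiF 13 2) =
      (psiF 2 3 * psiF 3 13 * psiF 13 2) * (psiF 2 3 * psiF 3 4 * psiF 4 2) := by
    rw [hk, hl, ← zpow_add, ← zpow_add, add_comm]
  exact absurd hcomm (by decide +kernel)

end Pool.Agent.Helper65K9.NL
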